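import Pool.Agent.Helper20.Mono.GoalsH

/-! Packet H3 of the monodromy project: evaluation of the rational function `ZDL`. -/

namespace Mono

open Finset

variable {n : ℕ}

namespace H3h

/-- `f` is defined at `z` and has the value `r` there. -/
def Good (z : ℂ) (f : RatFunc ℂ) (r : ℂ) : Prop :=
  f.denom.eval z ≠ 0 ∧ RatFunc.eval (RingHom.id ℂ) z f = r

variable {z : ℂ} {f g : RatFunc ℂ} {r t : ℂ}

theorem eval2_eq (p : Polynomial ℂ) : Polynomial.eval₂ (RingHom.id ℂ) z p = p.eval z := rfl

theorem Good.congr (h : Good z f r) (hrt : r = t) : Good z f t := hrt ▸ h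

theorem good_C (c : ℂ) : Good z (RatFunc.C c) c :=
  ⟨by rw [RatFunc.denom_C]; simp, by rw [RatFunc.eval_C]; rfl⟩

theorem good_one : Good z 1 1 := by
  have := good_C (z := z) 1
  rwa [map_one] at this

theorem good_zero : Good z 0 0 := by
  have := good_C (z := z) 0
  rwa [map_zero] at this

theorem good_X : Good z RatFunc.X z :=
  ⟨by rw [RatFunc.denom_X]; simp, RatFunc.eval_X _ _⟩

theorem Good.add (hf : Good z f r) (hg : Good z g t) : Good z (f + g) (r + t) := by
  refine ⟨fun h0 => ?_, ?_⟩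
  · have h1 := Polynomial.eval_eq_zero_of_dvd_of_eval_eq_zero (RatFunc.denom_add_dvd f g) h0
    rw [Polynomial.eval_mul] at h1
    exact mul_ne_zero hf.1 hg.1 h1
  · rw [RatFunc.eval_add _ _ (by rw [eval2_eq]; exact hf.1) (by rw [eval2_eq]; exact hg.1), hf.2, hg.2]

theorem Good.mul (hf : Good z f r) (hg : Good z g t) : Good z (f * g) (r * t) := by
  refine ⟨fun h0 => ?_, ?_⟩
  · have h1 := Polynomial.eval_eq_zero_of_dvd_of_eval_eq_zero (RatFunc.denom_mul_dvd f g) h0
    rw [Polynomial.eval_mul] at h1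
    exact mul_ne_zero hf.1 hg.1 h1
  · rw [RatFunc.eval_mul _ _ (by rw [eval2_eq]; exact hf.1) (by rw [eval2_eq]; exact hg.1), hf.2, hg.2]

theorem Good.inv (hf : Good z f r) (hr : r ≠ 0) : Good z f⁻¹ r⁻¹ := by
  have hf0 : f ≠ 0 := by
    rintro rfl
    exact hr (hf.2.symm.trans (RatFunc.eval_zero _ _))
  have hnum : f.num.eval z ≠ 0 := by
    intro h
    apply hr
    rw [← hf.2, RatFunc.eval, eval2_eq, h, zero_div]
  have h1 : (f⁻¹).denom.eval z ≠ 0 := by
    intro h0
    exact hnum (Polynomial.eval_eq_zero_of_dvd_of_eval_eq_zero (RatFunc.denom_inv_dvd hf0) h0)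
  refine ⟨h1, ?_⟩
  have h2 := (hf.mul (⟨h1, rfl⟩ : Good z f⁻¹ _)).2
  rw [mul_inv_cancel₀ hf0, RatFunc.eval_one] at h2
  exact (eq_inv_of_mul_eq_one_right h2.symm)

theorem Good.div (hf : Good z f r) (hg : Good z g t) (ht : t ≠ 0) : Good z (f / g) (r / t) := by
  rw [div_eq_mul_inv, div_eq_mul_inv]
  exact hf.mul (hg.inv ht)

theorem Good.pow (hf : Good z f r) (k : ℕ) : Good z (f ^ k) (r ^ k) := by
  induction k with
  | zero => rw [pow_zero, pow_zero]; exact good_one
  | succ k ih => rw [pow_succ, pow_succ]; exact ih.mul hf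

theorem good_sum {ι : Type*} (s : Finset ι) (F : ι → RatFunc ℂ) (R : ι → ℂ)
    (h : ∀ i ∈ s, Good z (F i) (R i)) : Good z (∑ i ∈ s, F i) (∑ i ∈ s, R i) := by
  classical
  induction s using Finset.induction_on with
  | empty => simpa using good_zero
  | insert a s ha ih =>
    rw [Finset.sum_insert ha, Finset.sum_insert ha]
    exact (h a (Finset.mem_insert_self _ _)).add
      (ih fun i hi => h i (Finset.mem_insert_of_mem hi))

theorem good_prod {ι : Type*} (s : Finset ι) (F : ι → RatFunc ℂ) (R : ι → ℂ)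
    (h : ∀ i ∈ s, Good z (F i) (R i)) : Good z (∏ i ∈ s, F i) (∏ i ∈ s, R i) := by
  classical
  induction s using Finset.induction_on with
  | empty => simpa using good_one
  | insert a s ha ih =>
    rw [Finset.prod_insert ha, Finset.prod_insert ha]
    exact (h a (Finset.mem_insert_self _ _)).mul
      (ih fun i hi => h i (Finset.mem_insert_of_mem hi))

theorem good_neg_one : Good z (-1) (-1) := by
  have := good_C (z := z) (-1)
  rwa [map_neg, map_one] at this

/-- The support function is nonnegative on nonnegative vectors. -/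
theorem NA_nonneg (A : Finset (Fin n → ℤ)) (hA : ∀ v ∈ A, ∀ i, 0 ≤ v i) (a : Fin n → ℤ)
    (ha : ∀ i, 0 ≤ a i) : 0 ≤ NA A a := by
  unfold NA
  rcases Set.eq_empty_or_nonempty {z : ℤ | ∃ v ∈ A, z = a ⬝ᵥ v} with h | h
  · rw [h, Int.csInf_empty]
  · have hpos : ∀ x ∈ {z : ℤ | ∃ v ∈ A, z = a ⬝ᵥ v}, 0 ≤ x := by
      rintro x ⟨v, hv, rfl⟩
      exact Finset.sum_nonneg fun i _ => mul_nonneg (ha i) (hA v hv i)
    exact hpos _ (Int.csInf_mem h ⟨0, fun x hx => hpos x hx⟩)

theorem sum_pos_of_mem (T : Fan n) {δ : Finset (Fin n → ℤ)} (hδ : T.IsFace δ)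
    {a : Fin n → ℤ} (ha : a ∈ δ) : 0 < ∑ i, (a i : ℝ) := by
  have hnn : ∀ i, 0 ≤ a i := T.vert_nonneg a (Fan.IsFace.subset_vert T hδ ha)
  have hne : toR a ≠ 0 := by
    have h1 := Fan.IsFace.indep T hδ
    exact h1.ne_zero (⟨a, ha⟩ : δ)
  obtain ⟨i, hi⟩ : ∃ i, a i ≠ 0 := by
    by_contra hcon
    push Not at hcon
    exact hne (by funext i; simp [hcon i])
  refine Finset.sum_pos' (fun j _ => by exact_mod_cast hnn j) ⟨i, Finset.mem_univ _, ?_⟩
  have := lt_of_le_of_ne (hnn i) (Ne.symm hi)
  exact_mod_cast this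

end H3h

open H3h in
theorem zEval : ZEval := by
  intro n A T hA s hs
  have key : Good (s : ℂ) (ZDL A T) ((Zreal A T s : ℝ) : ℂ) := by
    unfold ZDL Zreal
    rw [Complex.ofReal_sum]
    refine good_sum _ _ _ fun φ _ => ?_
    rw [Complex.ofReal_mul, Complex.ofReal_mul]
    refine ((Good.mul ?_ ?_)).mul ?_
    · unfold cDL
      split_ifs with h
      · rw [Complex.ofReal_one]; exact good_one
      · rw [Complex.ofReal_mul, Complex.ofReal_div, Complex.ofReal_pow, Complex.ofReal_neg,
          Complex.ofReal_add, Complex.ofReal_one]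
        refine (good_X.div (good_X.add good_one) ?_).mul (good_neg_one.pow _)
        have : ((s + 1 : ℝ) : ℂ) ≠ 0 := by
          rw [Ne, Complex.ofReal_eq_zero]
          positivity
        simpa using this
    · rw [Complex.ofReal_intCast]
      exact good_C _
    · rw [Complex.ofReal_sum]
      refine good_sum _ _ _ fun δ hδ => ?_
      have hface : T.IsFace δ := (Fan.mem_faces T).1 (Finset.mem_filter.1 hδ).1
      rw [Complex.ofReal_div, Complex.ofReal_prod, Complex.ofReal_natCast]
      refine (good_C _).div (good_prod _ _ _ fun a ha => ?_) ?_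
      · rw [Complex.ofReal_add, Complex.ofReal_mul, Complex.ofReal_intCast, Complex.ofReal_sum]
        refine ((good_C _).mul good_X).add ?_
        refine (good_C _).congr ?_
        exact Finset.sum_congr rfl fun i _ => by rw [Complex.ofReal_intCast]
      · rw [Finset.prod_ne_zero_iff]
        intro a ha
        rw [Ne, Complex.ofReal_eq_zero]
        have h1 : 0 ≤ (NA A a : ℝ) := by
          exact_mod_cast NA_nonneg A hA a
            (T.vert_nonneg a (Fan.IsFace.subset_vert T hface ha))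
        have h2 := sum_pos_of_mem T hface ha
        positivity
  exact key

end Mono
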