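import Pool.Agent.Helper20.Mono.Goals

/-! Packet E1 of the monodromy project: `LowDegree → PairVanish`. -/

namespace Mono

open Finset

variable {n : ℕ}

namespace E1h

theorem Esum_add (Φ : Fan n) (G : Finset (Fin n → ℤ)) (w : Fin n → ℝ)
    (p q : MvPolynomial (Fin n → ℤ) ℝ) :
    Φ.Esum G w (p + q) = Φ.Esum G w p + Φ.Esum G w q := by
  unfold Fan.Esum
  rw [← Finset.sum_add_distrib]
  refine Finset.sum_congr rfl fun F _ => ?_
  rw [map_add, add_div]

theorem Esum_C_mul (Φ : Fan n) (G : Finset (Fin n → ℤ)) (w : Fin n → ℝ) (a : ℝ)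
    (p : MvPolynomial (Fin n → ℤ) ℝ) :
    Φ.Esum G w (MvPolynomial.C a * p) = a * Φ.Esum G w p := by
  unfold Fan.Esum
  rw [Finset.mul_sum]
  refine Finset.sum_congr rfl fun F _ => ?_
  rw [map_mul, MvPolynomial.eval_C, mul_div_assoc]

theorem Esum_zero (Φ : Fan n) (G : Finset (Fin n → ℤ)) (w : Fin n → ℝ) :
    Φ.Esum G w 0 = 0 := by
  unfold Fan.Esum
  exact Finset.sum_eq_zero fun F _ => by simp

/-- The localization sum as a linear map. -/
noncomputable def EL (Φ : Fan n) (G : Finset (Fin n → ℤ)) (w : Fin n → ℝ) :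
    MvPolynomial (Fin n → ℤ) ℝ →ₗ[ℝ] ℝ where
  toFun := Φ.Esum G w
  map_add' := Esum_add Φ G w
  map_smul' := fun a p => by
    rw [MvPolynomial.smul_eq_C_mul, Esum_C_mul, RingHom.id_apply, smul_eq_mul]

theorem eval_theta (Φ : Fan n) {F : Finset (Fin n → ℤ)} (hF : F ∈ Φ.mx) (w : Fin n → ℝ)
    (j : Fin n) : MvPolynomial.eval (crd F w) (Φ.theta j) = w j := by
  unfold Fan.theta
  rw [map_sum]
  have h1 : ∑ u ∈ Φ.vert, MvPolynomial.eval (crd F w)
      (MvPolynomial.C ((u j : ℤ) : ℝ) * MvPolynomial.X u) =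
      ∑ u ∈ F, crd F w u * (u j : ℝ) := by
    rw [← Finset.sum_subset (Φ.mx_sub F hF)]
    · refine Finset.sum_congr rfl fun u _ => ?_
      simp [mul_comm]
    · intro u _ hu
      simp [crd_of_notMem F w hu]
  rw [h1]
  have h2 := congrFun (sum_crd (Φ.mx_indep F hF) (Φ.mx_card F hF) w) j
  simpa [Finset.sum_apply] using h2

theorem Esum_theta_mul (Φ : Fan n) (G : Finset (Fin n → ℤ)) (w : Fin n → ℝ) (j : Fin n)
    (p : MvPolynomial (Fin n → ℤ) ℝ) :
    Φ.Esum G w (Φ.theta j * p) = w j * Φ.Esum G w p := by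
  unfold Fan.Esum
  rw [Finset.mul_sum]
  refine Finset.sum_congr rfl fun F hF => ?_
  rw [map_mul, eval_theta Φ (Finset.mem_filter.1 hF).1, mul_div_assoc]

theorem eval_monomial_eq_zero {F : Finset (Fin n → ℤ)} (w : Fin n → ℝ)
    {m : (Fin n → ℤ) →₀ ℕ} (a : ℝ) (hm : ¬ m.support ⊆ F) :
    MvPolynomial.eval (crd F w) (MvPolynomial.monomial m a) = 0 := by
  rw [MvPolynomial.eval_monomial]
  obtain ⟨u, hu, huF⟩ := Finset.not_subset.1 hm
  have : (m.prod fun u e => crd F w u ^ e) = 0 := by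
    unfold Finsupp.prod
    refine Finset.prod_eq_zero hu ?_
    show crd F w u ^ (m u) = 0
    rw [crd_of_notMem F w huF]
    exact zero_pow (Finsupp.mem_support_iff.1 hu)
  rw [this, mul_zero]

theorem Esum_monomial_eq_zero (Φ : Fan n) (G : Finset (Fin n → ℤ)) (w : Fin n → ℝ)
    {m : (Fin n → ℤ) →₀ ℕ} (a : ℝ) (hm : ¬ Φ.IsFace (m.support ∪ G)) :
    Φ.Esum G w (MvPolynomial.monomial m a) = 0 := by
  unfold Fan.Esum
  refine Finset.sum_eq_zero fun F hF => ?_
  obtain ⟨hF1, hF2⟩ := Finset.mem_filter.1 hF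
  rw [eval_monomial_eq_zero w a, zero_div]
  intro h
  exact hm ⟨F, hF1, Finset.union_subset h hF2⟩

/-- Monomials of an element of `bad G`. -/
theorem mem_bad_support (Φ : Fan n) (G : Finset (Fin n → ℤ))
    {p : MvPolynomial (Fin n → ℤ) ℝ} (hp : p ∈ Φ.bad G) {m : (Fin n → ℤ) →₀ ℕ}
    (hm : m ∈ p.support) : ¬ Φ.IsFace (m.support ∪ G) := by
  have h1 : Φ.bad G = Ideal.span ((fun s => MvPolynomial.monomial s (1 : ℝ)) ''
      {m : (Fin n → ℤ) →₀ ℕ | ¬ Φ.IsFace (m.support ∪ G)}) := by
    unfold Fan.bad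
    congr 1
    ext p
    constructor
    · rintro ⟨m, hm, rfl⟩
      exact ⟨m, hm, rfl⟩
    · rintro ⟨m, hm, rfl⟩
      exact ⟨m, hm, rfl⟩
  rw [h1, MvPolynomial.mem_ideal_span_monomial_image] at hp
  obtain ⟨s, hs, hsm⟩ := hp m hm
  intro hf
  refine hs (Fan.IsFace.subset Φ hf ?_)
  exact Finset.union_subset_union (Finsupp.support_mono hsm) (Finset.Subset.refl _)

open Classical in
/-- The main computation: a monomial of small degree covering `G`. -/
theorem Esum_cover (hLD : LowDegree) (Φ : Fan n) (G : Finset (Fin n → ℤ))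
    (w : Fin n → ℝ) (hw : Φ.Generic w) (M : (Fin n → ℤ) →₀ ℕ)
    (hcov : ∀ i, i ∉ cs G → ∃ u ∈ M.support, u i ≠ 0) (hdeg : M.degree + G.card < n) :
    Φ.Esum G w (MvPolynomial.monomial M 1) = 0 := by
  by_cases hface : Φ.IsFace (M.support ∪ G)
  swap
  · exact Esum_monomial_eq_zero Φ G w 1 hface
  set τ := M.support ∪ G with hτ
  have hcs : cs τ = univ := by
    ext i
    simp only [Finset.mem_univ, iff_true]
    unfold cs
    rw [Finset.mem_filter]
    refine ⟨Finset.mem_univ _, ?_⟩
    by_cases hi : i ∈ cs G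
    · unfold cs at hi
      obtain ⟨_, u, hu, hui⟩ := Finset.mem_filter.1 hi
      exact ⟨u, Finset.mem_union_right _ hu, hui⟩
    · obtain ⟨u, hu, hui⟩ := hcov i hi
      exact ⟨u, Finset.mem_union_left _ hu, hui⟩
  -- the indicator of `τ \ G`
  set D : (Fin n → ℤ) →₀ ℕ := ∑ u ∈ τ \ G, Finsupp.single u 1 with hD
  have hDapp : ∀ u, D u = if u ∈ τ \ G then 1 else 0 := by
    intro u
    rw [hD, Finsupp.finsetSum_apply]
    simp [Finsupp.single_apply]
  have hDle : D ≤ M := by
    intro u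
    rw [hDapp]
    split_ifs with h
    · have hu : u ∈ M.support := by
        rcases Finset.mem_sdiff.1 h with ⟨h1, h2⟩
        rcases Finset.mem_union.1 h1 with h3 | h3
        · exact h3
        · exact absurd h3 h2
      exact Nat.one_le_iff_ne_zero.2 (Finsupp.mem_support_iff.1 hu)
    · exact Nat.zero_le _
  obtain ⟨M', hM'⟩ := exists_add_of_le hDle
  have hDdeg : D.degree = (τ \ G).card := by
    rw [hD, map_sum]
    simp
  have hGτ : G ⊆ τ := Finset.subset_union_right
  have hcard : (τ \ G).card + G.card = τ.card := by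
    rw [Finset.card_sdiff_add_card_eq_card hGτ]
  have hMdeg : M.degree = (τ \ G).card + M'.degree := by
    rw [hM', map_add, hDdeg]
  have key : Φ.Esum G w (MvPolynomial.monomial M 1) = Φ.Esum τ w (MvPolynomial.monomial M' 1) := by
    unfold Fan.Esum
    have hsub : Φ.mx.filter (fun F => τ ⊆ F) ⊆ Φ.mx.filter (fun F => G ⊆ F) := by
      intro F hF
      obtain ⟨h1, h2⟩ := Finset.mem_filter.1 hF
      exact Finset.mem_filter.2 ⟨h1, hGτ.trans h2⟩
    rw [← Finset.sum_subset hsub]
    · refine Finset.sum_congr rfl fun F hF => ?_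
      obtain ⟨h1, h2⟩ := Finset.mem_filter.1 hF
      have e1 : MvPolynomial.eval (crd F w) (MvPolynomial.monomial M (1 : ℝ)) =
          (∏ u ∈ τ \ G, crd F w u) *
            MvPolynomial.eval (crd F w) (MvPolynomial.monomial M' (1 : ℝ)) := by
        have e2 : (MvPolynomial.monomial M (1 : ℝ)) =
            (∏ u ∈ τ \ G, MvPolynomial.X u) * MvPolynomial.monomial M' (1 : ℝ) := by
          have e3 : (∏ u ∈ τ \ G, MvPolynomial.X u : MvPolynomial (Fin n → ℤ) ℝ) =
              MvPolynomial.monomial D 1 := by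
            rw [hD, MvPolynomial.monomial_sum_one]
            rfl
          rw [e3, MvPolynomial.monomial_mul, hM', one_mul]
        rw [e2, map_mul, map_prod]
        simp
      have e4 : ∏ u ∈ F \ G, crd F w u =
          (∏ u ∈ F \ τ, crd F w u) * ∏ u ∈ τ \ G, crd F w u := by
        rw [← Finset.prod_union]
        · refine Finset.prod_congr ?_ fun _ _ => rfl
          ext u
          simp only [Finset.mem_sdiff, Finset.mem_union]
          constructor
          · rintro ⟨ha, hb⟩
            by_cases hc : u ∈ τ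
            · exact Or.inr ⟨hc, hb⟩
            · exact Or.inl ⟨ha, hc⟩
          · rintro (⟨ha, hb⟩ | ⟨ha, hb⟩)
            · exact ⟨ha, fun hc => hb (hGτ hc)⟩
            · exact ⟨h2 ha, hb⟩
        · rw [Finset.disjoint_left]
          intro u hu hu'
          exact (Finset.mem_sdiff.1 hu).2 (Finset.mem_sdiff.1 hu').1
      have e5 : ∏ u ∈ τ \ G, crd F w u ≠ 0 := by
        rw [Finset.prod_ne_zero_iff]
        intro u hu
        exact hw.1 F h1 u (h2 (Finset.mem_sdiff.1 hu).1)
      rw [e1, e4, mul_comm (∏ u ∈ τ \ G, crd F w u), ← mul_assoc, mul_div_mul_right _ _ e5]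
    · intro F hF hF'
      obtain ⟨h1, h2⟩ := Finset.mem_filter.1 hF
      rw [eval_monomial_eq_zero w, zero_div]
      intro h
      exact hF' (Finset.mem_filter.2 ⟨h1, Finset.union_subset h h2⟩)
  rw [key]
  refine hLD n Φ τ hface hcs w hw M'.degree _ (MvPolynomial.isHomogeneous_monomial 1 rfl) ?_
  omega

end E1h

open E1h in
theorem pairVanish (hLD : LowDegree) : PairVanish := by
  intro n Φ G _ w hw m₁ m₂ hmem hcov hdeg
  set d := m₁.degree + m₂.degree with hd
  -- the functional
  set Λ : MvPolynomial (Fin n → ℤ) ℝ →ₗ[ℝ] ℝ :=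
    (EL Φ G w) ∘ₗ (MvPolynomial.homogeneousComponent d) ∘ₗ
      (LinearMap.mulRight ℝ (MvPolynomial.monomial m₂ (1 : ℝ))) with hΛ
  have hΛa : ∀ p, Λ p = Φ.Esum G w
      (MvPolynomial.homogeneousComponent d (p * MvPolynomial.monomial m₂ (1 : ℝ))) := fun p => rfl
  have h1 : Λ (MvPolynomial.monomial m₁ 1) = Φ.Esum G w (MvPolynomial.monomial (m₁ + m₂) 1) := by
    rw [hΛa, MvPolynomial.monomial_mul, one_mul]
    rw [MvPolynomial.homogeneousComponent_of_mem
      (MvPolynomial.isHomogeneous_monomial 1 (n := d) (by rw [map_add]))]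
    simp
  rw [← h1]
  -- bad part
  have hbad : ∀ b ∈ Φ.bad G, Λ b = 0 := by
    intro b hb
    have hb' : b * MvPolynomial.monomial m₂ (1 : ℝ) ∈ Φ.bad G := Ideal.mul_mem_right _ _ hb
    rw [hΛa]
    set q := b * MvPolynomial.monomial m₂ (1 : ℝ)
    have hq : ∀ m ∈ (MvPolynomial.homogeneousComponent d q).support,
        ¬ Φ.IsFace (m.support ∪ G) := by
      intro m hm
      refine mem_bad_support Φ G hb' ?_
      rw [MvPolynomial.mem_support_iff, MvPolynomial.coeff_homogeneousComponent] at hm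
      rw [MvPolynomial.mem_support_iff]
      intro h0
      apply hm
      split_ifs
      · exact h0
      · rfl
    rw [MvPolynomial.as_sum (MvPolynomial.homogeneousComponent d q)]
    change EL Φ G w _ = 0
    rw [map_sum]
    exact Finset.sum_eq_zero fun m hm => Esum_monomial_eq_zero Φ G w _ (hq m hm)
  have htheta : ∀ (j : Fin n) (g : MvPolynomial (Fin n → ℤ) ℝ), Λ (g * Φ.theta j) = 0 := by
    intro j g
    rw [MvPolynomial.as_sum g, Finset.sum_mul, map_sum]
    refine Finset.sum_eq_zero fun m _ => ?_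
    set a := MvPolynomial.coeff m g
    have hhom : (Φ.theta j * MvPolynomial.monomial (m + m₂) a).IsHomogeneous
        (1 + (m + m₂).degree) := by
      refine MvPolynomial.IsHomogeneous.mul ?_ (MvPolynomial.isHomogeneous_monomial a rfl)
      unfold Fan.theta
      refine MvPolynomial.IsHomogeneous.sum _ _ _ fun u _ => ?_
      have := (MvPolynomial.isHomogeneous_C (Fin n → ℤ) ((u j : ℤ) : ℝ)).mul
        (MvPolynomial.isHomogeneous_X ℝ u)
      simpa using this
    have e1 : MvPolynomial.monomial m a * Φ.theta j * MvPolynomial.monomial m₂ (1 : ℝ) =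
        Φ.theta j * MvPolynomial.monomial (m + m₂) a := by
      have e2 : MvPolynomial.monomial (m + m₂) a =
          MvPolynomial.monomial m a * MvPolynomial.monomial m₂ (1 : ℝ) := by
        rw [MvPolynomial.monomial_mul, mul_one]
      rw [e2]; ring
    rw [hΛa, e1, MvPolynomial.homogeneousComponent_of_mem hhom]
    split_ifs with hdd
    · rw [Esum_theta_mul]
      have e3 : MvPolynomial.monomial (m + m₂) a =
          MvPolynomial.C a * MvPolynomial.monomial (m + m₂) (1 : ℝ) := by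
        rw [MvPolynomial.C_mul_monomial, mul_one]
      rw [e3, Esum_C_mul, Esum_cover hLD Φ G w hw (m + m₂)]
      · ring
      · intro i hi
        obtain ⟨u, hu, hui⟩ := hcov i hi
        refine ⟨u, ?_, hui⟩
        rw [Finsupp.mem_support_iff] at hu ⊢
        rw [Finsupp.add_apply]
        omega
      · omega
    · exact Esum_zero Φ G w
  obtain ⟨b, hb, t, ht, hbt⟩ := Submodule.mem_sup.1 hmem
  rw [← hbt, map_add, hbad b hb, zero_add]
  have hspan : ∀ g, Λ (g * t) = 0 := by
    refine Submodule.span_induction (p := fun x _ => ∀ g, Λ (g * x) = 0) ?_ ?_ ?_ ?_ ht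
    · rintro x ⟨j, rfl⟩ g
      exact htheta j g
    · intro g
      rw [mul_zero, map_zero]
    · intro x y _ _ hx hy g
      rw [mul_add, map_add, hx, hy, add_zero]
    · intro a x _ hx g
      rw [smul_eq_mul, ← mul_assoc]
      exact hx _
  have := hspan 1
  rwa [one_mul] at this

end Mono
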